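import Mathlib

namespace Pool.Agent.Results.MP_f4335c_lc.DelayedLower

open Finset

/-! ## The delayed k-server problem -/

/-- A configuration: the positions of the `k` servers and the index of the frozen server. -/
abbrev Cfg (M : Type*) (k : ℕ) := (Fin k → M) × Fin k

/-- One step: from state `s`, the request `r` is served leading to state `s'`. The frozen server
`s.2` does not move, and the server `s'.2`, which becomes the frozen one, is at `r`. -/
def Step {M : Type*} {k : ℕ} (s s' : Cfg M k) (r : M) : Prop :=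
  s'.1 s.2 = s.1 s.2 ∧ s'.1 s'.2 = r

/-- Total distance moved. -/
noncomputable def moveCost {M : Type*} [MetricSpace M] {k : ℕ} (s s' : Cfg M k) : ℝ :=
  ∑ i, dist (s.1 i) (s'.1 i)

/-- `Sched s0 ρ s c`: the request sequence `ρ` can be served from the initial state `s0` at total
cost `c` ending in state `s`. -/
inductive Sched {M : Type*} [MetricSpace M] {k : ℕ} (s0 : Cfg M k) :
    List M → Cfg M k → ℝ → Prop
  | nil : Sched s0 [] s0 0
  | snoc {ρ : List M} {s s' : Cfg M k} {c : ℝ} {r : M} :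
      Sched s0 ρ s c → Step s s' r → Sched s0 (ρ ++ [r]) s' (c + moveCost s s')

/-- The optimal offline cost. -/
noncomputable def opt {M : Type*} [MetricSpace M] {k : ℕ} (s0 : Cfg M k) (ρ : List M) : ℝ :=
  sInf {c | ∃ s, Sched s0 ρ s c}

/-- A deterministic online algorithm: `A ρ` is its state after having served `ρ`. -/
def IsOnline {M : Type*} {k : ℕ} (s0 : Cfg M k) (A : List M → Cfg M k) : Prop :=
  A [] = s0 ∧ ∀ ρ r, Step (A ρ) (A (ρ ++ [r])) r

/-- The cost paid by the online algorithm `A` on the request sequence `ρ`. -/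
noncomputable def onlineCost {M : Type*} [MetricSpace M] {k : ℕ} (A : List M → Cfg M k)
    (ρ : List M) : ℝ :=
  ∑ t ∈ range ρ.length, moveCost (A (ρ.take t)) (A (ρ.take (t + 1)))

/-- Some deterministic online algorithm is `C`-competitive from the initial state `s0`. -/
def Competitive {M : Type*} [MetricSpace M] {k : ℕ} (s0 : Cfg M k) (C : ℝ) : Prop :=
  ∃ A : List M → Cfg M k, IsOnline s0 A ∧
    ∃ K : ℝ, ∀ ρ : List M, onlineCost A ρ ≤ C * opt s0 ρ + K

/-- The competitiveness `C_{M,k}` (`+∞` if no online algorithm is competitive). -/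
noncomputable def competitiveness {M : Type*} [MetricSpace M] {k : ℕ} (s0 : Cfg M k) : EReal :=
  sInf {x : EReal | ∃ C : ℝ, x = (C : EReal) ∧ Competitive s0 C}

/-! ## The game on `k+1` points -/

section Game

variable {F : Type} (d : F → F → ℝ)

/-- `Off d h0 f0 σ h f c`: offline, starting with hole `h0` and frozen point `f0`, the requests
`σ` (latest first) can be served with cost `c` ending with hole `h` and frozen point `f`. -/
inductive Off (h0 f0 : F) : List F → F → F → ℝ → Prop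
  | nil : Off h0 f0 [] h0 f0 0
  | free {σ : List F} {h f : F} {c : ℝ} (p : F) : Off h0 f0 σ h f c → p ≠ h →
      Off h0 f0 (p :: σ) h p c
  | hit {σ : List F} {h f : F} {c : ℝ} (x : F) : Off h0 f0 σ h f c → x ≠ h → x ≠ f →
      Off h0 f0 (h :: σ) x h (c + d x h)
  | shift {σ : List F} {h f : F} {c : ℝ} (x : F) : Off h0 f0 σ h f c → x ≠ h → x ≠ f →
      Off h0 f0 σ x f (c + d x h)

/-- The adversary can force the goal `G` while keeping the invariant `I`. -/
inductive Force (I G : F → F → List F → ℝ → Prop) : F → F → List F → ℝ → Prop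
  | done {h f : F} {σ : List F} {X : ℝ} : I h f σ X → G h f σ X → Force I G h f σ X
  | free {h f : F} {σ : List F} {X : ℝ} (p : F) : I h f σ X → p ≠ h →
      Force I G h p (p :: σ) X → Force I G h f σ X
  | hit {h f : F} {σ : List F} {X : ℝ} : I h f σ X →
      (∀ x, x ≠ h → x ≠ f → Force I G x h (h :: σ) (X + d x h)) → Force I G h f σ X

/-- the invariant: `r` times the offline cost is at most the online cost plus a constant -/
def Inv (r c0 : ℝ) (h0 f0 : F) (_ _ : F) (σ : List F) (X : ℝ) : Prop :=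
  ∃ h' f' c, Off d h0 f0 σ h' f' c ∧ r * c ≤ X + c0

/-- the ratio `r` can be forced -/
def Ratio (r : ℝ) : Prop :=
  ∃ c0 : ℝ, 0 ≤ c0 ∧ ∀ h0 f0 : F, h0 ≠ f0 → ∀ L : ℝ,
    Force d (Inv d r c0 h0 f0) (fun _ _ _ X => L ≤ X) h0 f0 [] 0

structure Met : Prop where
  zero : ∀ x, d x x = 0
  symm : ∀ x y, d x y = d y x
  tri : ∀ x y z, d x z ≤ d x y + d y z
  pos : ∀ x y, x ≠ y → 0 < d x y

variable {d}

theorem Met.nonneg (hd : Met d) (x y : F) : 0 ≤ d x y := by
  by_cases h : x = y
  · rw [h, hd.zero]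
  · exact (hd.pos x y h).le

theorem Off.trans {h0 f0 h1 f1 h2 f2 : F} {σ1 σ2 : List F} {c1 c2 : ℝ}
    (H1 : Off d h0 f0 σ1 h1 f1 c1) (H2 : Off d h1 f1 σ2 h2 f2 c2) :
    Off d h0 f0 (σ2 ++ σ1) h2 f2 (c1 + c2) := by
  induction H2 with
  | nil => simpa using H1
  | free p _ hp ih => exact Off.free p ih hp
  | hit x _ h1 h2 ih =>
    rw [← add_assoc]
    exact Off.hit x ih h1 h2
  | shift x _ h1 h2 ih =>
    rw [← add_assoc]
    exact Off.shift x ih h1 h2

theorem Off.nonneg (hd : Met d) {h0 f0 h f : F} {σ : List F} {c : ℝ}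
    (H : Off d h0 f0 σ h f c) : 0 ≤ c := by
  induction H with
  | nil => exact le_rfl
  | free p _ hp ih => exact ih
  | hit x _ h1 h2 ih => exact add_nonneg ih (hd.nonneg _ _)
  | shift x _ h1 h2 ih => exact add_nonneg ih (hd.nonneg _ _)

theorem Force.comp {I G1 G2 : F → F → List F → ℝ → Prop} {h f : F} {σ : List F} {X : ℝ}
    (H : Force d I G1 h f σ X) (hG : ∀ h f σ X, G1 h f σ X → Force d I G2 h f σ X) :
    Force d I G2 h f σ X := by
  induction H with
  | done _ hg => exact hG _ _ _ _ hg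
  | free p hI hp _ ih => exact Force.free p hI hp ih
  | hit hI _ ih => exact Force.hit hI ih

end Game

/-! ## The 4-cycle, three servers -/

def cyc (x y : Fin 4) : ℕ := min ((x.val + 4 - y.val) % 4) (4 - (x.val + 4 - y.val) % 4)

def TH : List (Fin 4) := [0, 0, 0, 0, 0, 0, 0, 0, 0, 0, 0, 1, 1, 1, 1, 1, 1, 1, 1, 1, 1, 1, 2, 2, 2, 2, 2, 2, 2, 2, 2, 2, 2, 3, 3, 3, 3, 3, 3, 3, 3, 3, 3, 3]
def TF : List (Fin 4) := [1, 1, 1, 1, 2, 2, 2, 3, 3, 3, 3, 0, 0, 0, 0, 2, 2, 2, 2, 3, 3, 3, 0, 0, 0, 1, 1, 1, 1, 3, 3, 3, 3, 0, 0, 0, 0, 1, 1, 1, 2, 2, 2, 2]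
def TP : List (Fin 4) := [0, 2, 0, 0, 0, 0, 0, 0, 2, 0, 0, 1, 2, 1, 1, 1, 1, 3, 1, 1, 1, 1, 2, 2, 2, 2, 2, 2, 0, 2, 2, 2, 0, 3, 3, 3, 1, 3, 3, 3, 3, 3, 3, 0]
def TE : List ℕ := [0, 2, 1, 0, 2, 1, 1, 0, 2, 1, 0, 0, 2, 1, 0, 1, 0, 2, 0, 1, 2, 1, 1, 2, 1, 0, 0, 1, 2, 0, 0, 1, 2, 0, 0, 1, 2, 1, 2, 1, 1, 0, 0, 2]
def TR : List ℕ := [0, 1, 0, 0, 0, 0, 0, 0, 1, 0, 0, 0, 2, 0, 0, 0, 0, 1, 0, 0, 0, 0, 0, 0, 0, 0, 0, 0, 1, 0, 0, 0, 1, 0, 0, 0, 1, 0, 0, 0, 0, 0, 0, 2]
def TM : List ℕ := [0, 0, 0, 0, 1, 0, 0, 0, 0, 0, 0, 0, 0, 0, 0, 0, 0, 0, 0, 0, 1, 0, 0, 1, 0, 0, 0, 0, 0, 0, 0, 0, 0, 0, 0, 0, 0, 0, 1, 0, 0, 0, 0, 0]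
def TW : List (List ℕ) := [[0, 0, 0, 1], [0, 0, 2, 1], [1, 0, 1, 0], [2, 0, 0, 1], [0, 1, 0, 1], [1, 0, 0, 2], [1, 2, 0, 0], [0, 1, 0, 0], [0, 1, 2, 0], [1, 0, 1, 0], [2, 1, 0, 0], [0, 0, 1, 0], [0, 0, 1, 2], [0, 1, 0, 1], [0, 2, 1, 0], [0, 1, 0, 1], [1, 0, 0, 0], [1, 0, 0, 2], [1, 2, 0, 0], [0, 1, 2, 0], [1, 0, 1, 0], [2, 1, 0, 0], [0, 0, 1, 2], [0, 1, 0, 1], [0, 2, 1, 0], [0, 0, 0, 1], [0, 0, 2, 1], [1, 0, 1, 0], [2, 0, 0, 1], [0, 1, 0, 0], [0, 1, 2, 0], [1, 0, 1, 0], [2, 1, 0, 0], [0, 0, 1, 0], [0, 0, 1, 2], [0, 1, 0, 1], [0, 2, 1, 0], [0, 0, 2, 1], [1, 0, 1, 0], [2, 0, 0, 1], [0, 1, 0, 1], [1, 0, 0, 0], [1, 0, 0, 2], [1, 2, 0, 0]]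
def TN : List (List ℕ) := [[0, 0, 23, 35], [4, 4, 4, 4], [0, 0, 24, 36], [0, 0, 23, 35], [0, 11, 0, 33], [0, 12, 0, 34], [0, 14, 0, 36], [0, 13, 23, 0], [4, 4, 4, 4], [0, 12, 22, 0], [0, 13, 23, 0], [0, 0, 27, 38], [17, 17, 17, 17], [0, 0, 28, 39], [0, 0, 27, 38], [1, 0, 0, 37], [2, 0, 0, 38], [20, 20, 20, 20], [2, 0, 0, 38], [1, 0, 26, 0], [0, 0, 25, 0], [3, 0, 28, 0], [0, 17, 0, 42], [0, 16, 0, 41], [0, 18, 0, 43], [4, 0, 0, 40], [4, 0, 0, 40], [6, 0, 0, 43], [23, 23, 23, 23], [4, 15, 0, 0], [4, 15, 0, 0], [5, 17, 0, 0], [23, 23, 23, 23], [0, 20, 31, 0], [0, 20, 31, 0], [0, 21, 32, 0], [38, 38, 38, 38], [8, 0, 30, 0], [7, 0, 29, 0], [10, 0, 32, 0], [8, 19, 0, 0], [9, 20, 0, 0], [9, 20, 0, 0], [36, 36, 36, 36]]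
def TS : List (List ℕ) := [[0, 1, 4, 8], [12, 0, 17, 20], [23, 28, 0, 32], [36, 38, 43, 0]]

def gH (i : ℕ) : Fin 4 := TH.getD i 0
def gF (i : ℕ) : Fin 4 := TF.getD i 0
def gP (i : ℕ) : Fin 4 := TP.getD i 0
def gE (i : ℕ) : ℕ := TE.getD i 0
def gR (i : ℕ) : ℕ := TR.getD i 0
def gM (i : ℕ) : ℕ := TM.getD i 0
def gW (i : ℕ) (x : Fin 4) : ℕ := (TW.getD i []).getD x.val 0
def gN (i : ℕ) (x : Fin 4) : ℕ := (TN.getD i []).getD x.val 0
def gS (x y : Fin 4) : ℕ := (TS.getD x.val []).getD y.val 0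

theorem tab_range : ∀ i : Fin 44, ∀ x : Fin 4, gN i x < 44 := by decide +kernel
theorem tab_bnd : ∀ i : Fin 44, gE i ≤ 2 ∧ gR i ≤ 2 ∧ gH i ≠ gF i ∧ gP i ≠ gF i ∧
    ∀ x : Fin 4, gW i x ≤ 2 := by decide +kernel
theorem tab_w : ∀ i : Fin 44, ∀ x : Fin 4, (gP i = gH i → x ≠ gH i ∧ x ≠ gF i) → ∀ y : Fin 4,
    y ≠ gP i → ∃ y2 : Fin 4, y2 ≠ gP i ∧ y2 ≠ gF i ∧
      (gW i y2 + cyc y y2 ≤ gM i + gW (gN i x) y ∨
        gW i (gP i) + cyc y2 (gP i) + cyc y y2 ≤ gM i + gW (gN i x) y) := by decide +kernel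
theorem tab_free : ∀ i : Fin 44, gP i ≠ gH i → ∀ x : Fin 4, gH (gN i x) = gH i ∧
    gF (gN i x) = gP i ∧ gE (gN i x) + 3 * gM i ≤ gE i ∧ gR (gN i x) < gR i := by decide +kernel
theorem tab_hit : ∀ i : Fin 44, gP i = gH i → ∀ x : Fin 4, x ≠ gH i → x ≠ gF i →
    gH (gN i x) = x ∧ gF (gN i x) = gH i ∧ gE (gN i x) + 3 * gM i ≤ gE i + cyc x (gH i) ∧
    1 ≤ cyc x (gH i) := by decide +kernel
theorem tab_start : ∀ h f : Fin 4, h ≠ f → gS h f < 44 ∧ gH (gS h f) = h ∧ gF (gS h f) = f ∧
    ∀ x : Fin 4, x ≠ f → gW (gS h f) x = cyc x h := by decide +kernel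

/-- the 4-cycle metric -/
def dc (x y : Fin 4) : ℝ := (cyc x y : ℝ)

theorem met_dc : Met dc := by
  have h0 : ∀ x : Fin 4, cyc x x = 0 := by decide
  have h1 : ∀ x y : Fin 4, cyc x y = cyc y x := by decide
  have h2 : ∀ x y z : Fin 4, cyc x z ≤ cyc x y + cyc y z := by decide
  have h3 : ∀ x y : Fin 4, x ≠ y → 0 < cyc x y := by decide
  refine ⟨?_, ?_, ?_, ?_⟩
  · intro x; unfold dc; rw [h0]; simp
  · intro x y; unfold dc; rw [h1]
  · intro x y z; unfold dc; exact_mod_cast h2 x y z
  · intro x y hxy; unfold dc; exact_mod_cast h3 x y hxy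

/-- offline cost at most `v` -/
def OffLe (h0 f0 : Fin 4) (σ : List (Fin 4)) (h f : Fin 4) (v : ℝ) : Prop :=
  ∃ c, c ≤ v ∧ Off dc h0 f0 σ h f c

theorem offLe_shift {h0 f0 : Fin 4} {σ : List (Fin 4)} {h f x : Fin 4} {v : ℝ}
    (H : OffLe h0 f0 σ h f v) (hx : x ≠ f) : OffLe h0 f0 σ x f (v + cyc x h) := by
  obtain ⟨c, hc, ho⟩ := H
  by_cases hxh : x = h
  · subst hxh
    exact ⟨c, by have : (0:ℝ) ≤ (cyc x x : ℝ) := Nat.cast_nonneg _
                 linarith, ho⟩
  · exact ⟨c + dc x h, by unfold dc; linarith, Off.shift x ho hxh hx⟩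

def Node (h0 f0 : Fin 4) (i : ℕ) (σ : List (Fin 4)) (X : ℝ) : Prop :=
  ∃ b : ℕ, (∀ x, x ≠ gF i → OffLe h0 f0 σ x (gF i) (b + gW i x)) ∧
    3 * (b : ℝ) + gE i ≤ X + 2

theorem node_trans {h0 f0 : Fin 4} {i : Fin 44} {σ : List (Fin 4)} {X X' : ℝ} (x : Fin 4)
    (H : Node h0 f0 i σ X) (hx : gP i = gH i → x ≠ gH i ∧ x ≠ gF i)
    (hF : gF (gN i x) = gP i)
    (hX : (gE (gN i x) : ℝ) + 3 * gM i + X ≤ gE i + X') :
    Node h0 f0 (gN i x) (gP i :: σ) X' := by
  obtain ⟨b, hb, hE⟩ := H
  refine ⟨b + gM i, ?_, ?_⟩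
  · intro y hy
    rw [hF] at hy ⊢
    obtain ⟨y2, h1, h2, h3⟩ := tab_w i x hx y hy
    rcases h3 with h3 | h3
    · obtain ⟨c, hc, ho⟩ := hb y2 h2
      have ho2 : OffLe h0 f0 (gP i :: σ) y2 (gP i) c := ⟨c, le_rfl, Off.free _ ho h1.symm⟩
      obtain ⟨c', hc', ho'⟩ := offLe_shift ho2 hy
      refine ⟨c', ?_, ho'⟩
      have h3' : (gW i y2 : ℝ) + cyc y y2 ≤ gM i + gW (gN i x) y := by exact_mod_cast h3
      push_cast
      linarith
    · have hPF := (tab_bnd i).2.2.2.1
      obtain ⟨c, hc, ho⟩ := hb (gP i) hPF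
      have ho2 : OffLe h0 f0 (gP i :: σ) y2 (gP i) (c + cyc y2 (gP i)) :=
        ⟨c + dc y2 (gP i), le_rfl, Off.hit _ ho h1 h2⟩
      obtain ⟨c', hc', ho'⟩ := offLe_shift ho2 hy
      refine ⟨c', ?_, ho'⟩
      have h3' : (gW i (gP i) : ℝ) + cyc y2 (gP i) + cyc y y2 ≤ gM i + gW (gN i x) y := by
        exact_mod_cast h3
      push_cast
      linarith
  · push_cast
    linarith

theorem node_inv {h0 f0 : Fin 4} {i : Fin 44} {σ : List (Fin 4)} {X : ℝ} {a b : Fin 4}
    (H : Node h0 f0 i σ X) : Inv dc 3 8 h0 f0 a b σ X := by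
  obtain ⟨c, hc, hE⟩ := H
  have h1 := (tab_bnd i).2.2.1
  have h2 := (tab_bnd i).2.2.2.2 (gH i)
  obtain ⟨v, hv, ho⟩ := hc (gH i) h1
  refine ⟨_, _, v, ho, ?_⟩
  have h2' : (gW i (gH i) : ℝ) ≤ 2 := by exact_mod_cast h2
  have h3 : (0:ℝ) ≤ gE i := Nat.cast_nonneg _
  linarith

theorem base_force (h0 f0 : Fin 4) (L : ℝ) : ∀ (n r : ℕ) (i : Fin 44) (σ : List (Fin 4)) (X : ℝ),
    gR i ≤ r → L ≤ X + n → Node h0 f0 i σ X →
    Force dc (Inv dc 3 8 h0 f0) (fun _ _ _ X => L ≤ X) (gH i) (gF i) σ X := by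
  intro n
  induction n with
  | zero =>
    intro r i σ X _ hL hN
    exact Force.done (node_inv hN) (by simpa using hL)
  | succ n ihn =>
    intro r
    induction r with
    | zero =>
      intro i σ X hr hL hN
      have hP : gP i = gH i := by
        by_contra hc
        have := (tab_free i hc 0).2.2.2
        omega
      refine Force.hit (node_inv hN) ?_
      intro x hx1 hx2
      obtain ⟨t1, t2, t3, t4⟩ := tab_hit i hP x hx1 hx2
      have hlt := tab_range i x
      have hN' : Node h0 f0 (gN i x) (gP i :: σ) (X + dc x (gH i)) := by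
        apply node_trans x hN (fun _ => ⟨hx1, hx2⟩) (by rw [t2, hP])
        have t3' : (gE (gN i x) : ℝ) + 3 * gM i ≤ gE i + cyc x (gH i) := by exact_mod_cast t3
        unfold dc
        linarith
      have := ihn 2 ⟨gN i x, hlt⟩ (gP i :: σ) (X + dc x (gH i)) (tab_bnd ⟨gN i x, hlt⟩).2.1
        (by
          have t4' : (1:ℝ) ≤ cyc x (gH i) := by exact_mod_cast t4
          unfold dc
          push_cast at hL
          linarith) hN'
      simp only at this
      rw [t1, t2, hP] at this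
      exact this
    | succ r ihr =>
      intro i σ X hr hL hN
      by_cases hP : gP i = gH i
      · refine Force.hit (node_inv hN) ?_
        intro x hx1 hx2
        obtain ⟨t1, t2, t3, t4⟩ := tab_hit i hP x hx1 hx2
        have hlt := tab_range i x
        have hN' : Node h0 f0 (gN i x) (gP i :: σ) (X + dc x (gH i)) := by
          apply node_trans x hN (fun _ => ⟨hx1, hx2⟩) (by rw [t2, hP])
          have t3' : (gE (gN i x) : ℝ) + 3 * gM i ≤ gE i + cyc x (gH i) := by exact_mod_cast t3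
          unfold dc
          linarith
        have := ihn 2 ⟨gN i x, hlt⟩ (gP i :: σ) (X + dc x (gH i)) (tab_bnd ⟨gN i x, hlt⟩).2.1
          (by
            have t4' : (1:ℝ) ≤ cyc x (gH i) := by exact_mod_cast t4
            unfold dc
            push_cast at hL
            linarith) hN'
        simp only at this
        rw [t1, t2, hP] at this
        exact this
      · refine Force.free (gP i) (node_inv hN) hP ?_
        obtain ⟨t1, t2, t3, t4⟩ := tab_free i hP 0
        have hlt := tab_range i 0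
        have hN' : Node h0 f0 (gN i 0) (gP i :: σ) X := by
          apply node_trans 0 hN (fun h => absurd h hP) t2
          have t3' : (gE (gN i 0) : ℝ) + 3 * gM i ≤ gE i := by exact_mod_cast t3
          linarith
        have := ihr ⟨gN i 0, hlt⟩ (gP i :: σ) X (by show gR (gN i 0) ≤ r; omega) hL hN'
        simp only at this
        rw [t1, t2] at this
        exact this

theorem base_ratio : Ratio dc 3 := by
  refine ⟨8, by norm_num, ?_⟩
  intro h0 f0 hne L
  obtain ⟨t1, t2, t3, t4⟩ := tab_start h0 f0 hne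
  obtain ⟨n, hn⟩ := exists_nat_ge L
  have := base_force h0 f0 L n 2 ⟨gS h0 f0, t1⟩ [] 0 (tab_bnd ⟨gS h0 f0, t1⟩).2.1
    (by linarith) (by
      refine ⟨0, ?_, ?_⟩
      · intro x hx
        simp only at hx ⊢
        rw [t3] at hx ⊢
        rw [t4 x hx]
        have : OffLe h0 f0 [] h0 f0 0 := ⟨0, le_rfl, Off.nil⟩
        have := offLe_shift this hx
        simpa using this
      · have := (tab_bnd ⟨gS h0 f0, t1⟩).1
        have h2 : (gE (gS h0 f0) : ℝ) ≤ 2 := by exact_mod_cast this
        simpa using h2)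
  simp only at this
  rw [t2, t3] at this
  exact this

theorem Force.imp {F : Type} {d : F → F → ℝ} {I I' G G' : F → F → List F → ℝ → Prop} {h f : F}
    {σ : List F} {X : ℝ} (H : Force d I G h f σ X) (hI : ∀ h f σ X, I h f σ X → I' h f σ X)
    (hG : ∀ h f σ X, G h f σ X → G' h f σ X) : Force d I' G' h f σ X := by
  induction H with
  | done h1 h2 => exact Force.done (hI _ _ _ _ h1) (hG _ _ _ _ h2)
  | free p h1 hp _ ih => exact Force.free p (hI _ _ _ _ h1) hp ih
  | hit h1 _ ih => exact Force.hit (hI _ _ _ _ h1) ih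

theorem Ratio.mono {F : Type} {d : F → F → ℝ} (hd : Met d) {r r' : ℝ} (h : r ≤ r')
    (H : Ratio d r') : Ratio d r := by
  obtain ⟨c0, hc0, H⟩ := H
  refine ⟨c0, hc0, ?_⟩
  intro h0 f0 hne L
  refine (H h0 f0 hne L).imp ?_ (fun _ _ _ _ h => h)
  rintro _ _ σ X ⟨h', f', c, ho, hc⟩
  refine ⟨h', f', c, ho, ?_⟩
  have := ho.nonneg hd
  nlinarith

/-! ## Adding a far point -/

section Ext

variable {F : Type}

/-- the space with one more point at distance `D` from all others -/
def ext (d : F → F → ℝ) (D : ℝ) : Option F → Option F → ℝ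
  | none, none => 0
  | some _, none => D
  | none, some _ => D
  | some x, some y => d x y

theorem met_ext {d : F → F → ℝ} (hd : Met d) {D : ℝ} (hD : 0 < D) (h2 : ∀ x y, d x y ≤ 2 * D) :
    Met (ext d D) := by
  refine ⟨?_, ?_, ?_, ?_⟩
  · intro x
    rcases x with _ | x
    · rfl
    · exact hd.zero x
  · intro x y
    rcases x with _ | x <;> rcases y with _ | y
    · rfl
    · rfl
    · rfl
    · exact hd.symm x y
  · intro x y z
    rcases x with _ | x <;> rcases y with _ | y <;> rcases z with _ | z <;> simp only [ext]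
    · linarith
    · linarith
    · linarith
    · have := hd.nonneg y z; linarith
    · linarith
    · have := h2 x z; linarith
    · have := hd.nonneg x y; linarith
    · exact hd.tri x y z
  · intro x y hxy
    rcases x with _ | x <;> rcases y with _ | y
    · exact absurd rfl hxy
    · exact hD
    · exact hD
    · exact hd.pos x y (fun h => hxy (by rw [h]))

theorem Off.lift {d : F → F → ℝ} {D : ℝ} {h0 f0 h f : F} {σ : List F} {c : ℝ}
    (H : Off d h0 f0 σ h f c) :
    Off (ext d D) (some h0) (some f0) (σ.map some) (some h) (some f) c := by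
  induction H with
  | nil => exact Off.nil
  | free p _ hp ih => exact Off.free (some p) ih (fun h => hp (Option.some.inj h))
  | hit x _ h1 h2 ih =>
    exact Off.hit (some x) ih (fun h => h1 (Option.some.inj h)) (fun h => h2 (Option.some.inj h))
  | shift x _ h1 h2 ih =>
    exact Off.shift (some x) ih (fun h => h1 (Option.some.inj h)) (fun h => h2 (Option.some.inj h))

/-- end of a phase -/
def PhaseEnd (d : F → F → ℝ) (D r e Y : ℝ) (H0 F0 : Option F) (H Fz : Option F)
    (S : List (Option F)) (Y' : ℝ) : Prop :=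
  ∃ h1 f1, H = some h1 ∧ Fz = some f1 ∧ h1 ≠ f1 ∧ ∃ C1,
    Off (ext d D) H0 F0 S (some h1) (some f1) C1 ∧ r * C1 ≤ Y' + e ∧ Y + 2 * D ≤ Y'

theorem lift {d : F → F → ℝ} (hd : Met d) {D Δ ρ ε c0 e : ℝ} (hΔ : ∀ x y, d x y ≤ Δ)
    (hD : 0 < D) (hρ : 1 ≤ ρ) (hε : 0 < ε) (hε1 : ε ≤ 1) (hc0 : 0 ≤ c0) (he : 0 ≤ e)
    (hbig : (ρ + 1 - ε) * (c0 / ρ + 2 * Δ) ≤ 2 * ε * D)
    (three : ∀ a b : F, ∃ x, x ≠ a ∧ x ≠ b)
    {H0 F0 : Option F} {τ : List (Option F)} {C0 Y : ℝ} {h0 f0 : F}
    (hC : Off (ext d D) H0 F0 τ (some h0) (some f0) C0) (hCY : (ρ + 1 - ε) * C0 ≤ Y + e)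
    {h f : F} {σ : List F} {X : ℝ}
    (H : Force d (Inv d ρ c0 h0 f0) (fun _ _ _ X => 2 * (ρ + 1) * D ≤ X) h f σ X) :
    h ≠ f → 0 ≤ X → Off (ext d D) (some h0) (some f0) (σ.map some) none (some f) D →
    Force (ext d D) (Inv (ext d D) (ρ + 1 - ε) (e + (ρ + 1 - ε) * (2 * D)) H0 F0)
      (PhaseEnd d D (ρ + 1 - ε) e Y H0 F0) (some h) (some f) (σ.map some ++ τ) (Y + X) := by
  have hr : 1 ≤ ρ + 1 - ε := by linarith
  have hr0 : 0 ≤ ρ + 1 - ε := by linarith
  have mkI : ∀ {a b a' b' : Option F} {S : List (Option F)} {t Y' : ℝ},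
      Off (ext d D) H0 F0 S a' b' (C0 + t) → t ≤ 2 * D → Y ≤ Y' →
      Inv (ext d D) (ρ + 1 - ε) (e + (ρ + 1 - ε) * (2 * D)) H0 F0 a b S Y' := by
    intro a b a' b' S t Y' ho ht hY
    refine ⟨a', b', C0 + t, ho, ?_⟩
    have : (ρ + 1 - ε) * t ≤ (ρ + 1 - ε) * (2 * D) := mul_le_mul_of_nonneg_left ht hr0
    rw [mul_add]
    linarith
  induction H with
  | @done h f σ X hI hG =>
    intro hne hX hOff
    have o1 := hC.trans hOff
    have o2 : Off (ext d D) (some h0) (some f0) (none :: σ.map some) (some h) none (D + D) :=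
      Off.hit (some h) hOff (by simp) (fun hh => hne (Option.some.inj hh))
    have o3 : Off (ext d D) (some h0) (some f0) (some f :: none :: σ.map some) (some h) (some f)
        (D + D) := Off.free (some f) o2 (fun hh => hne (Option.some.inj hh).symm)
    have hG' : 2 * (ρ + 1) * D ≤ X := hG
    refine Force.free none (mkI o1 (by linarith) (by linarith)) (by simp) ?_
    refine Force.free (some f) (mkI (hC.trans o2) (by linarith) (by linarith))
      (fun hh => hne (Option.some.inj hh).symm) ?_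
    refine Force.done (mkI (hC.trans o3) (by linarith) (by linarith)) ?_
    refine ⟨h, f, rfl, rfl, hne, C0 + (D + D), hC.trans o3, ?_, ?_⟩
    · rw [mul_add]
      have : (ρ + 1 - ε) * (D + D) ≤ 2 * (ρ + 1) * D := by nlinarith
      linarith
    · have : 2 * D ≤ 2 * (ρ + 1) * D := by nlinarith
      linarith
  | @free h f σ X p hI hp _ ih =>
    intro hne hX hOff
    refine Force.free (some p) (mkI (hC.trans hOff) (by linarith) (by linarith))
      (fun hh => hp (Option.some.inj hh)) ?_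
    exact ih (fun hh => hp hh.symm) hX (Off.free (some p) hOff (by simp))
  | @hit h f σ X hI _ ih =>
    intro hne hX hOff
    refine Force.hit (mkI (hC.trans hOff) (by linarith) (by linarith)) ?_
    intro x hx1 hx2
    rcases x with _ | y
    · -- the far server comes
      have o1 : Off (ext d D) (some h0) (some f0) (some h :: σ.map some) none (some h) D :=
        Off.free (some h) hOff (by simp)
      show Force _ _ _ none (some h) (some h :: (σ.map some ++ τ)) (Y + X + D)
      refine Force.hit (mkI (hC.trans o1) (by linarith) (by linarith)) ?_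
      intro y' hy1 hy2
      rcases y' with _ | y
      · exact absurd rfl hy1
      have hyh : y ≠ h := fun hh => hy2 (by rw [hh])
      have o2 : Off (ext d D) (some h0) (some f0) (none :: some h :: σ.map some) (some y) none
          (D + D) := Off.hit (some y) o1 (by simp) hy2
      have o3 : Off (ext d D) (some h0) (some f0) (some h :: none :: some h :: σ.map some)
          (some y) (some h) (D + D) :=
        Off.free (some h) o2 (fun hh => hy2 hh.symm)
      show Force _ _ _ (some y) none (none :: some h :: (σ.map some ++ τ)) (Y + X + D + D)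
      refine Force.free (some h) (mkI (hC.trans o2) (by linarith) (by linarith))
        (fun hh => hy2 hh.symm) ?_
      refine Force.done (mkI (hC.trans o3) (by linarith) (by linarith)) ?_
      by_cases hXb : 2 * ρ * D ≤ X
      · refine ⟨y, h, rfl, rfl, hyh, C0 + (D + D), hC.trans o3, ?_, by linarith⟩
        rw [mul_add]
        have : (ρ + 1 - ε) * (D + D) ≤ 2 * ρ * D + 2 * D := by nlinarith
        linarith
      · push Not at hXb
        obtain ⟨h', f', c, ho, hc⟩ := hI
        -- offline serves h inside F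
        obtain ⟨h'', c'', ho2, hc2⟩ : ∃ h'' c'', Off d h0 f0 (h :: σ) h'' h c'' ∧ c'' ≤ c + Δ := by
          by_cases hh : h = h'
          · subst hh
            obtain ⟨x, hx1, hx2⟩ := three h f'
            exact ⟨x, c + d x h, Off.hit x ho hx1 hx2, by have := hΔ x h; linarith⟩
          · exact ⟨h', c, Off.free h ho hh, by have := hΔ h h; rw [hd.zero] at this; linarith⟩
        have ho3 : Off (ext d D) (some h0) (some f0) (some h :: σ.map some) (some h'') (some h)
            c'' := ho2.lift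
        have ho4 : Off (ext d D) (some h0) (some f0) (none :: some h :: σ.map some) (some h'') none
            c'' := Off.free none ho3 (by simp)
        obtain ⟨c5, ho5, hc5⟩ : ∃ c5, Off (ext d D) (some h0) (some f0)
            (none :: some h :: σ.map some) (some y) none c5 ∧ c5 ≤ c'' + Δ := by
          by_cases hh : y = h''
          · subst hh
            exact ⟨c'', ho4, by have := hΔ y y; rw [hd.zero] at this; linarith⟩
          · exact ⟨c'' + d y h'', Off.shift (some y) ho4 (fun hq => hh (Option.some.inj hq))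
              (by simp), by have := hΔ y h''; linarith⟩
        have ho6 : Off (ext d D) (some h0) (some f0) (some h :: none :: some h :: σ.map some)
            (some y) (some h) c5 := Off.free (some h) ho5 (fun hh => hy2 hh.symm)
        refine ⟨y, h, rfl, rfl, hyh, C0 + c5, hC.trans ho6, ?_, by linarith⟩
        have hρ0 : 0 < ρ := by linarith
        have hcb : c ≤ X / ρ + c0 / ρ := by
          rw [← add_div, le_div_iff₀ hρ0]
          linarith
        have hu : X / ρ < 2 * D := by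
          rw [div_lt_iff₀ hρ0]
          linarith
        have hXu : ρ * (X / ρ) = X := by field_simp
        have hc5' : c5 ≤ X / ρ + (c0 / ρ + 2 * Δ) := by linarith
        have h1 : (ρ + 1 - ε) * c5 ≤ (ρ + 1 - ε) * (X / ρ + (c0 / ρ + 2 * Δ)) :=
          mul_le_mul_of_nonneg_left hc5' hr0
        have h2 : (1 - ε) * (X / ρ) ≤ (1 - ε) * (2 * D) :=
          mul_le_mul_of_nonneg_left hu.le (by linarith)
        have h3 : (ρ + 1 - ε) * (X / ρ) = X + (1 - ε) * (X / ρ) := by
          have : (ρ + 1 - ε) * (X / ρ) = ρ * (X / ρ) + (1 - ε) * (X / ρ) := by ring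
          rw [this, hXu]
        rw [mul_add] at h1
        rw [mul_add, mul_comm] at *
        nlinarith
    · have hyh : y ≠ h := fun hh => hx1 (by rw [hh])
      have hyf : y ≠ f := fun hh => hx2 (by rw [hh])
      have := ih y hyh hyf hyh (by have := hd.nonneg y h; linarith)
        (Off.free (some h) hOff (by simp))
      show Force _ _ _ (some y) (some h) (some h :: (σ.map some ++ τ)) (Y + X + d y h)
      rw [add_assoc]
      exact this

end Ext

theorem iter_phases {F : Type} {d : F → F → ℝ} (hd : Met d) {D Δ ρ ε c0 e L : ℝ}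
    (hΔ : ∀ x y, d x y ≤ Δ)
    (hD : 0 < D) (hρ : 1 ≤ ρ) (hε : 0 < ε) (hε1 : ε ≤ 1) (hc0 : 0 ≤ c0) (he : 0 ≤ e)
    (hbig : (ρ + 1 - ε) * (c0 / ρ + 2 * Δ) ≤ 2 * ε * D)
    (three : ∀ a b : F, ∃ x, x ≠ a ∧ x ≠ b)
    (hforce : ∀ h0 f0 : F, h0 ≠ f0 → ∀ L : ℝ,
      Force d (Inv d ρ c0 h0 f0) (fun _ _ _ X => L ≤ X) h0 f0 [] 0)
    {H0 F0 : Option F} : ∀ (n : ℕ) (τ : List (Option F)) (C0 Y : ℝ) (h0 f0 : F), h0 ≠ f0 →
    Off (ext d D) H0 F0 τ (some h0) (some f0) C0 → (ρ + 1 - ε) * C0 ≤ Y + e → 0 ≤ Y →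
    L ≤ Y + 2 * D * n →
    Force (ext d D) (Inv (ext d D) (ρ + 1 - ε) (e + (ρ + 1 - ε) * (2 * D)) H0 F0)
      (fun _ _ _ X => L ≤ X) (some h0) (some f0) τ Y := by
  have hr0 : 0 ≤ ρ + 1 - ε := by linarith
  intro n
  induction n with
  | zero =>
    intro τ C0 Y h0 f0 hne hC hCY hY hL
    refine Force.done ⟨_, _, C0, hC, ?_⟩ (by simpa using hL)
    have : 0 ≤ (ρ + 1 - ε) * (2 * D) := mul_nonneg hr0 (by linarith)
    linarith
  | succ n ih =>
    intro τ C0 Y h0 f0 hne hC hCY hY hL
    have hoff : Off (ext d D) (some h0) (some f0) (([] : List F).map some) none (some f0) D := by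
      have := Off.shift (d := ext d D) (h0 := some h0) (f0 := some f0) none Off.nil
        (by simp) (by simp)
      simpa [ext] using this
    have h1 := lift hd hΔ hD hρ hε hε1 hc0 he hbig three hC hCY
      (hforce h0 f0 hne (2 * (ρ + 1) * D)) hne le_rfl hoff
    rw [add_zero] at h1
    refine Force.comp h1 ?_
    rintro H Fz S Y' ⟨h1, f1, rfl, rfl, hne1, C1, hC1, hCY1, hYY⟩
    refine ih S C1 Y' h1 f1 hne1 hC1 hCY1 (by linarith) ?_
    push_cast at hL
    linarith

theorem step_ratio {F : Type} [Finite F] {d : F → F → ℝ} (hd : Met d) {ρ ε : ℝ}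
    (hρ : 1 ≤ ρ) (hε : 0 < ε) (hε1 : ε ≤ 1) (three : ∀ a b : F, ∃ x, x ≠ a ∧ x ≠ b)
    (H : Ratio d ρ) : ∃ D, Met (ext d D) ∧ Ratio (ext d D) (ρ + 1 - ε) := by
  obtain ⟨c0, hc0, hforce⟩ := H
  obtain ⟨Δ, hΔ⟩ : ∃ Δ, ∀ q : F × F, d q.1 q.2 ≤ Δ := by
    obtain ⟨Δ, h⟩ := (Set.finite_range (fun q : F × F => d q.1 q.2)).bddAbove
    exact ⟨Δ, fun q => h ⟨q, rfl⟩⟩
  have hΔ' : ∀ x y, d x y ≤ max Δ 0 := fun x y => (hΔ (x, y)).trans (le_max_left _ _)
  set Δ' := max Δ 0 with hΔd
  have hΔ0 : 0 ≤ Δ' := le_max_right _ _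
  have hr0 : 0 ≤ ρ + 1 - ε := by linarith
  have hA : 0 ≤ (ρ + 1 - ε) * (c0 / ρ + 2 * Δ') :=
    mul_nonneg hr0 (add_nonneg (div_nonneg hc0 (by linarith)) (by linarith))
  set D := (ρ + 1 - ε) * (c0 / ρ + 2 * Δ') / (2 * ε) + Δ' + 1 with hDd
  have hA2 : 0 ≤ (ρ + 1 - ε) * (c0 / ρ + 2 * Δ') / (2 * ε) := div_nonneg hA (by linarith)
  have hD : 0 < D := by linarith
  have hbig : (ρ + 1 - ε) * (c0 / ρ + 2 * Δ') ≤ 2 * ε * D := by
    have h1 : 2 * ε * ((ρ + 1 - ε) * (c0 / ρ + 2 * Δ') / (2 * ε)) =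
        (ρ + 1 - ε) * (c0 / ρ + 2 * Δ') := by field_simp
    calc (ρ + 1 - ε) * (c0 / ρ + 2 * Δ') =
        2 * ε * ((ρ + 1 - ε) * (c0 / ρ + 2 * Δ') / (2 * ε)) := h1.symm
      _ ≤ 2 * ε * D := mul_le_mul_of_nonneg_left (by linarith) (by linarith)
  refine ⟨D, met_ext hd hD (fun x y => by have := hΔ' x y; linarith), ?_⟩
  set r := ρ + 1 - ε with hr
  have he : 0 ≤ r * D := mul_nonneg hr0 hD.le
  have hmain := fun (H0 F0 : Option F) (L : ℝ) => iter_phases (H0 := H0) (F0 := F0) (L := L) hd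
    hΔ' hD hρ hε hε1 hc0 he hbig three hforce
  refine ⟨r * D + r * (2 * D), by positivity, ?_⟩
  intro H0 F0 hne L
  obtain ⟨n, hn⟩ := exists_nat_ge (L / (2 * D))
  have hn' : L ≤ 2 * D * n := by
    rw [div_le_iff₀ (by linarith)] at hn
    linarith
  have hinv0 : ∀ {a b : Option F}, Inv (ext d D) r (r * D + r * (2 * D)) H0 F0 a b [] 0 := by
    intro a b
    exact ⟨_, _, 0, Off.nil, by
      have : 0 ≤ r * (2 * D) := mul_nonneg hr0 (by linarith)
      simp only [mul_zero, zero_add]
      linarith⟩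
  rcases H0 with _ | h
  · rcases F0 with _ | f
    · exact absurd rfl hne
    · refine Force.hit hinv0 ?_
      intro x hx1 hx2
      rcases x with _ | y
      · exact absurd rfl hx1
      have hyf : y ≠ f := fun hh => hx2 (by rw [hh])
      have o1 : Off (ext d D) none (some f) [none] (some y) none (0 + D) :=
        Off.hit (some y) Off.nil hx1 hx2
      have o2 : Off (ext d D) none (some f) [some f, none] (some y) (some f) (0 + D) :=
        Off.free (some f) o1 hx2.symm
      show Force _ _ _ (some y) none [none] (0 + D)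
      refine Force.free (some f) ⟨_, _, _, o1, ?_⟩ hx2.symm ?_
      · have : 0 ≤ r * (2 * D) := mul_nonneg hr0 (by linarith)
        simp only [zero_add]
        linarith
      · exact hmain _ _ L n _ _ _ y f hyf o2 (by simp only [zero_add]; linarith) (by linarith)
          (by linarith)
  · rcases F0 with _ | f
    · obtain ⟨f, hf, -⟩ := three h h
      have hne' : some f ≠ some h := fun hh => hf (Option.some.inj hh)
      refine Force.free (some f) hinv0 hne' ?_
      exact hmain _ _ L n _ _ _ h f (fun hh => hf hh.symm) (Off.free (some f) Off.nil hne')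
        (by simp only [mul_zero]; linarith) le_rfl (by linarith)
    · have hhf : h ≠ f := fun hh => hne (by rw [hh])
      exact hmain _ _ L n _ _ _ h f hhf Off.nil (by simp only [mul_zero]; linarith) le_rfl
        (by linarith)

theorem exists_ratio (k : ℕ) (hk : 3 ≤ k) : ∀ ε : ℝ, 0 < ε → ε < 1 →
    ∃ (F : Type) (_ : Fintype F) (d : F → F → ℝ), Fintype.card F = k + 1 ∧ Met d ∧
      Ratio d (k - ε) := by
  induction k, hk using Nat.le_induction with
  | base =>
    intro ε h0 h1
    exact ⟨Fin 4, inferInstance, dc, rfl, met_dc, base_ratio.mono met_dc (by push_cast; linarith)⟩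
  | succ k hk ih =>
    intro ε h0 h1
    obtain ⟨F, hF, d, hcard, hd, hR⟩ := ih (ε / 2) (by linarith) (by linarith)
    have hk' : (3 : ℝ) ≤ k := by exact_mod_cast hk
    have three : ∀ a b : F, ∃ x, x ≠ a ∧ x ≠ b := by
      classical
      intro a b
      by_contra hc
      push Not at hc
      have : (univ : Finset F) ⊆ {a, b} := by
        intro x _
        by_cases hx : x = a
        · simp [hx]
        · simp [hc x hx]
      have h2 := Finset.card_le_card this
      have h3 : ({a, b} : Finset F).card ≤ 2 := Finset.card_le_two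
      rw [Finset.card_univ, hcard] at h2
      omega
    obtain ⟨D, hm, hr⟩ := step_ratio hd (ρ := k - ε / 2) (ε := ε / 2) (by linarith) (by linarith)
      (by linarith) three hR
    refine ⟨Option F, inferInstance, ext d D, ?_, hm, ?_⟩
    · rw [Fintype.card_option, hcard]
    · have e : ((k + 1 : ℕ) : ℝ) - ε = k - ε / 2 + 1 - ε / 2 := by push_cast; ring
      rw [e]
      exact hr

/-! ## Connection with real algorithms -/

section Real

variable {M : Type} [MetricSpace M] {k : ℕ}

theorem onlineCost_snoc (A : List M → Cfg M k) (ρ : List M) (r : M) :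
    onlineCost A (ρ ++ [r]) = onlineCost A ρ + moveCost (A ρ) (A (ρ ++ [r])) := by
  unfold onlineCost
  rw [List.length_append, List.length_singleton, Finset.sum_range_succ]
  congr 1
  · apply Finset.sum_congr rfl
    intro t ht
    rw [Finset.mem_range] at ht
    rw [List.take_append_of_le_length ht.le, List.take_append_of_le_length (by omega)]
  · rw [List.take_append_of_le_length le_rfl, List.take_length,
      List.take_of_length_le (by simp)]

theorem surj_compl {F : Type} [Fintype F] (hcard : Fintype.card F = k + 1) (v : Fin k → F)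
    (hv : Function.Injective v) {h : F} (hh : ∀ m, v m ≠ h) (p : F) (hp : p ≠ h) :
    ∃ j, v j = p := by
  classical
  have h1 : univ.image v ⊆ univ.erase h := by
    intro x hx
    obtain ⟨m, -, rfl⟩ := Finset.mem_image.1 hx
    exact Finset.mem_erase.2 ⟨hh m, Finset.mem_univ _⟩
  have h2 : univ.image v = univ.erase h := by
    apply Finset.eq_of_subset_of_card_le h1
    rw [Finset.card_image_of_injective _ hv, Finset.card_erase_of_mem (Finset.mem_univ _),
      Finset.card_univ, Finset.card_univ, hcard, Fintype.card_fin]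
    simp
  have h3 : p ∈ univ.image v := by
    rw [h2]
    exact Finset.mem_erase.2 ⟨hp, Finset.mem_univ _⟩
  obtain ⟨j, -, hj⟩ := Finset.mem_image.1 h3
  exact ⟨j, hj⟩

theorem sum_update_le {F : Type} [DecidableEq (Fin k)] (φ : F → M) (c c' : Fin k → M)
    (v : Fin k → F) (j : Fin k) (x : F) (hx : c' j = φ x) :
    dist (φ (v j)) (φ x) + ∑ m, dist (c' m) (φ (Function.update v j x m)) ≤
      ∑ m, dist (c m) (φ (v m)) + ∑ m, dist (c m) (c' m) := by
  rw [← Finset.sum_add_distrib]
  rw [← Finset.add_sum_erase univ _ (Finset.mem_univ j),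
    ← Finset.add_sum_erase univ (fun m => dist (c m) (φ (v m)) + dist (c m) (c' m))
      (Finset.mem_univ j)]
  rw [Function.update_self, hx, dist_self, zero_add]
  apply add_le_add
  · rw [dist_comm (c j) (φ (v j))]
    exact dist_triangle _ _ _
  · apply Finset.sum_le_sum
    intro m hm
    rw [Function.update_of_ne (Finset.ne_of_mem_erase hm)]
    rw [add_comm, dist_comm (c m) (c' m)]
    exact dist_triangle _ _ _

/-- against the online algorithm `A`, the forced goal is reached -/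
theorem online_force {F : Type} [Fintype F] (hcard : Fintype.card F = k + 1) {d : F → F → ℝ}
    (φ : F → M) (hφ : ∀ x y, dist (φ x) (φ y) = d x y) (hd : Met d)
    {s0 : Cfg M k} {A : List M → Cfg M k} (hA : IsOnline s0 A) (pre : List M) (Φ : ℝ)
    {I G : F → F → List F → ℝ → Prop} {h f : F} {σ : List F} {X : ℝ}
    (H : Force d I G h f σ X) : ∀ (v : Fin k → F), Function.Injective v → (∀ m, v m ≠ h) →
    v (A (pre ++ (σ.map φ).reverse)).2 = f →
    (A (pre ++ (σ.map φ).reverse)).1 (A (pre ++ (σ.map φ).reverse)).2 = φ f →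
    X + ∑ m, dist ((A (pre ++ (σ.map φ).reverse)).1 m) (φ (v m)) ≤
      onlineCost A (pre ++ (σ.map φ).reverse) + Φ →
    ∃ h' f' σ' X', I h' f' σ' X' ∧ G h' f' σ' X' ∧
      X' ≤ onlineCost A (pre ++ (σ'.map φ).reverse) + Φ := by
  have hinj : Function.Injective φ := by
    intro x y hxy
    by_contra hc
    have := hd.pos x y hc
    rw [← hφ, hxy, dist_self] at this
    exact lt_irrefl _ this
  have hnext : ∀ (σ : List F) (p : F), pre ++ ((p :: σ).map φ).reverse =
      (pre ++ (σ.map φ).reverse) ++ [φ p] := by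
    intro σ p
    simp
  induction H with
  | @done h f σ X hI hG =>
    intro v hv hvh hvf hfr hX
    refine ⟨h, f, σ, X, hI, hG, ?_⟩
    have : 0 ≤ ∑ m, dist ((A (pre ++ (σ.map φ).reverse)).1 m) (φ (v m)) :=
      Finset.sum_nonneg (fun _ _ => dist_nonneg)
    linarith
  | @free h f σ X p hI hp _ ih =>
    intro v hv hvh hvf hfr hX
    obtain ⟨j, hj⟩ := surj_compl hcard v hv hvh p hp
    have hstep := hA.2 (pre ++ (σ.map φ).reverse) (φ p)
    have hcost := onlineCost_snoc A (pre ++ (σ.map φ).reverse) (φ p)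
    rw [← hnext] at hstep hcost
    set s := A (pre ++ (σ.map φ).reverse) with hs
    set s' := A (pre ++ ((p :: σ).map φ).reverse) with hs'
    refine ih (v ∘ Equiv.swap s'.2 j) (hv.comp (Equiv.injective _)) (fun m => hvh _) ?_ hstep.2 ?_
    · show v (Equiv.swap s'.2 j s'.2) = p
      rw [Equiv.swap_apply_left, hj]
    · rw [hcost]
      have key : ∑ m, dist (s'.1 m) (φ ((v ∘ Equiv.swap s'.2 j) m)) ≤
          ∑ m, dist (s'.1 m) (φ (v m)) := by
        by_cases hij : s'.2 = j
        · rw [hij, Equiv.swap_self]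
          rfl
        · rw [← Finset.add_sum_erase univ _ (Finset.mem_univ s'.2),
            ← Finset.add_sum_erase univ (fun m => dist (s'.1 m) (φ (v m)))
              (Finset.mem_univ s'.2)]
          have hj' : j ∈ univ.erase s'.2 := Finset.mem_erase.2 ⟨fun h => hij h.symm, mem_univ _⟩
          rw [← Finset.add_sum_erase _ _ hj',
            ← Finset.add_sum_erase _ (fun m => dist (s'.1 m) (φ (v m))) hj']
          rw [← add_assoc, ← add_assoc]
          apply add_le_add
          · simp only [Function.comp_apply, Equiv.swap_apply_left, Equiv.swap_apply_right]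
            rw [hj, hstep.2, dist_self, zero_add]
            calc dist (s'.1 j) (φ (v s'.2)) ≤ dist (s'.1 j) (φ p) + dist (φ p) (φ (v s'.2)) :=
                  dist_triangle _ _ _
              _ = dist (φ p) (φ (v s'.2)) + dist (s'.1 j) (φ p) := add_comm _ _
          · apply le_of_eq
            apply Finset.sum_congr rfl
            intro m hm
            have h1 : m ≠ j := Finset.ne_of_mem_erase hm
            have h2 : m ≠ s'.2 := Finset.ne_of_mem_erase (Finset.mem_of_mem_erase hm)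
            simp only [Function.comp_apply]
            rw [Equiv.swap_apply_of_ne_of_ne h2 h1]
      have key2 : ∑ m, dist (s'.1 m) (φ (v m)) ≤ ∑ m, dist (s.1 m) (φ (v m)) + moveCost s s' := by
        unfold moveCost
        rw [← Finset.sum_add_distrib]
        apply Finset.sum_le_sum
        intro m _
        rw [add_comm, dist_comm (s.1 m) (s'.1 m)]
        exact dist_triangle _ _ _
      linarith
  | @hit h f σ X hI _ ih =>
    intro v hv hvh hvf hfr hX
    have hstep := hA.2 (pre ++ (σ.map φ).reverse) (φ h)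
    have hcost := onlineCost_snoc A (pre ++ (σ.map φ).reverse) (φ h)
    rw [← hnext] at hstep hcost
    set s := A (pre ++ (σ.map φ).reverse) with hs
    set s' := A (pre ++ ((h :: σ).map φ).reverse) with hs'
    have hfh : f ≠ h := by rw [← hvf]; exact hvh _
    have hne : s'.2 ≠ s.2 := by
      intro hc
      have h1 := hstep.1
      have h2 := hstep.2
      rw [hc, h1, hfr] at h2
      exact hfh (hinj h2)
    have hx1 : v s'.2 ≠ h := hvh _
    have hx2 : v s'.2 ≠ f := by
      rw [← hvf]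
      exact fun hc => hne (hv hc)
    have hsum := sum_update_le φ s.1 s'.1 v s'.2 h hstep.2
    refine ih (v s'.2) hx1 hx2 (Function.update v s'.2 h) ?_ ?_ ?_ hstep.2 ?_
    · intro a b hab
      by_cases ha : a = s'.2
      · by_cases hb : b = s'.2
        · rw [ha, hb]
        · rw [ha, Function.update_self, Function.update_of_ne hb] at hab
          exact absurd hab.symm (hvh b)
      · by_cases hb : b = s'.2
        · rw [hb, Function.update_self, Function.update_of_ne ha] at hab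
          exact absurd hab (hvh a)
        · rw [Function.update_of_ne ha, Function.update_of_ne hb] at hab
          exact hv hab
    · intro m
      by_cases hm : m = s'.2
      · rw [hm, Function.update_self]
        exact hx1.symm
      · rw [Function.update_of_ne hm]
        exact fun hc => hm (hv hc)
    · rw [Function.update_self]
    · rw [hcost]
      rw [hφ] at hsum
      unfold moveCost
      linarith

theorem upd_inj {F : Type} {v : Fin k → F} (hv : Function.Injective v) {h : F}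
    (hvh : ∀ m, v m ≠ h) (j : Fin k) : Function.Injective (Function.update v j h) := by
  intro a b hab
  by_cases ha : a = j
  · by_cases hb : b = j
    · rw [ha, hb]
    · rw [ha, Function.update_self, Function.update_of_ne hb] at hab
      exact absurd hab.symm (hvh b)
  · by_cases hb : b = j
    · rw [hb, Function.update_self, Function.update_of_ne ha] at hab
      exact absurd hab (hvh a)
    · rw [Function.update_of_ne ha, Function.update_of_ne hb] at hab
      exact hv hab

theorem upd_avoid {F : Type} {v : Fin k → F} (hv : Function.Injective v) {h : F}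
    (hvh : ∀ m, v m ≠ h) (j : Fin k) (m : Fin k) : Function.update v j h m ≠ v j := by
  by_cases hm : m = j
  · rw [hm, Function.update_self]
    exact (hvh j).symm
  · rw [Function.update_of_ne hm]
    exact fun hc => hm (hv hc)

theorem sum_upd {F : Type} (φ : F → M) (c : Fin k → M) (v : Fin k → F) (j : Fin k) (h : F) :
    ∑ m, dist (c m) (φ (Function.update v j h m)) ≤
      ∑ m, dist (c m) (φ (v m)) + dist (φ (v j)) (φ h) := by
  rw [← Finset.add_sum_erase univ _ (Finset.mem_univ j),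
    ← Finset.add_sum_erase univ (fun m => dist (c m) (φ (v m))) (Finset.mem_univ j)]
  rw [Function.update_self]
  have h1 : ∑ m ∈ univ.erase j, dist (c m) (φ (Function.update v j h m)) =
      ∑ m ∈ univ.erase j, dist (c m) (φ (v m)) := by
    apply Finset.sum_congr rfl
    intro m hm
    rw [Function.update_of_ne (Finset.ne_of_mem_erase hm)]
  rw [h1]
  have := dist_triangle (c j) (φ (v j)) (φ h)
  linarith

theorem offline_sim {F : Type} [Fintype F] (hcard : Fintype.card F = k + 1) {d : F → F → ℝ}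
    (φ : F → M) (hφ : ∀ x y, dist (φ x) (φ y) = d x y)
    {s0 s1 : Cfg M k} {pre : List M} {K0 : ℝ} (hpre : Sched s0 pre s1 K0) {h0 f0 : F}
    (v0 : Fin k → F) (hv0 : Function.Injective v0) (hv0h : ∀ m, v0 m ≠ h0)
    (hcfg : ∀ m, s1.1 m = φ (v0 m)) (hfr : v0 s1.2 = f0)
    {σ : List F} {h f : F} {c : ℝ} (H : Off d h0 f0 σ h f c) :
    ∃ (s : Cfg M k) (v : Fin k → F) (c1 : ℝ), Sched s0 (pre ++ (σ.map φ).reverse) s c1 ∧
      Function.Injective v ∧ (∀ m, v m ≠ h) ∧ v s.2 = f ∧ s.1 s.2 = φ f ∧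
      c1 + ∑ m, dist (s.1 m) (φ (v m)) ≤ K0 + c := by
  induction H with
  | nil =>
    refine ⟨s1, v0, K0, by simpa using hpre, hv0, hv0h, hfr, ?_, ?_⟩
    · rw [hcfg, hfr]
    · have : ∑ m, dist (s1.1 m) (φ (v0 m)) = 0 := by
        apply Finset.sum_eq_zero
        intro m _
        rw [hcfg, dist_self]
      linarith
  | @free σ h f c p _ hp ih =>
    obtain ⟨s, v, c1, hs, hv, hvh, hvf, hsf, hc⟩ := ih
    obtain ⟨j, hj⟩ := surj_compl hcard v hv hvh p hp
    have hstep : Step s ((fun m => φ (v m)), j) (φ p) := by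
      refine ⟨?_, ?_⟩
      · show φ (v s.2) = s.1 s.2
        rw [hvf, hsf]
      · show φ (v j) = φ p
        rw [hj]
    refine ⟨((fun m => φ (v m)), j), v, c1 + moveCost s ((fun m => φ (v m)), j), ?_, hv, ?_, hj,
      ?_, ?_⟩
    · have e : pre ++ ((p :: σ).map φ).reverse = (pre ++ (σ.map φ).reverse) ++ [φ p] := by simp
      rw [e]
      exact Sched.snoc hs hstep
    · exact hvh
    · show φ (v j) = φ p
      rw [hj]
    · have h1 : ∑ m, dist ((((fun m => φ (v m)), j) : Cfg M k).1 m) (φ (v m)) = 0 := by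
        apply Finset.sum_eq_zero
        intro m _
        exact dist_self _
      rw [h1]
      unfold moveCost
      simp only at hc ⊢
      linarith
  | @hit σ h f c x _ hx1 hx2 ih =>
    obtain ⟨s, v, c1, hs, hv, hvh, hvf, hsf, hc⟩ := ih
    obtain ⟨j, hj⟩ := surj_compl hcard v hv hvh x hx1
    have hsj : s.2 ≠ j := by
      intro hh
      rw [hh, hj] at hvf
      exact hx2 hvf
    have hstep : Step s ((fun m => φ (Function.update v j h m)), j) (φ h) := by
      refine ⟨?_, ?_⟩
      · show φ (Function.update v j h s.2) = s.1 s.2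
        rw [Function.update_of_ne hsj, hvf, hsf]
      · show φ (Function.update v j h j) = φ h
        rw [Function.update_self]
    refine ⟨((fun m => φ (Function.update v j h m)), j), Function.update v j h,
      c1 + moveCost s ((fun m => φ (Function.update v j h m)), j), ?_, upd_inj hv hvh j, ?_, ?_,
      ?_, ?_⟩
    · have e : pre ++ ((h :: σ).map φ).reverse = (pre ++ (σ.map φ).reverse) ++ [φ h] := by simp
      rw [e]
      exact Sched.snoc hs hstep
    · rw [← hj]
      exact upd_avoid hv hvh j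
    · show Function.update v j h j = h
      rw [Function.update_self]
    · show φ (Function.update v j h j) = φ h
      rw [Function.update_self]
    · have h1 : ∑ m, dist ((((fun m => φ (Function.update v j h m)), j) : Cfg M k).1 m)
          (φ (Function.update v j h m)) = 0 := by
        apply Finset.sum_eq_zero
        intro m _
        exact dist_self _
      rw [h1]
      have h2 := sum_upd φ s.1 v j h
      rw [hj, hφ] at h2
      unfold moveCost
      simp only at hc h2 ⊢
      linarith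
  | @shift σ h f c x _ hx1 hx2 ih =>
    obtain ⟨s, v, c1, hs, hv, hvh, hvf, hsf, hc⟩ := ih
    obtain ⟨j, hj⟩ := surj_compl hcard v hv hvh x hx1
    have hsj : s.2 ≠ j := by
      intro hh
      rw [hh, hj] at hvf
      exact hx2 hvf
    refine ⟨s, Function.update v j h, c1, hs, upd_inj hv hvh j, ?_, ?_, hsf, ?_⟩
    · rw [← hj]
      exact upd_avoid hv hvh j
    · rw [Function.update_of_ne hsj, hvf]
    · have h2 := sum_upd φ s.1 v j h
      rw [hj, hφ] at h2
      linarith

theorem exists_v {F : Type} [Fintype F] (hcard : Fintype.card F = k + 1) {h q : F}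
    (hq : q ≠ h) (i : Fin k) :
    ∃ v : Fin k → F, Function.Injective v ∧ (∀ m, v m ≠ h) ∧ v i = q := by
  classical
  have hc : Fintype.card {x : F // x ≠ h} = Fintype.card (Fin k) := by
    rw [Fintype.card_subtype_compl, hcard, Fintype.card_fin]
    simp
  let e : {x : F // x ≠ h} ≃ Fin k := Fintype.equivOfCardEq hc
  refine ⟨fun m => (e.symm (Equiv.swap i (e ⟨q, hq⟩) m)).1, ?_, ?_, ?_⟩
  · intro a b hab
    have h1 := Subtype.ext hab
    exact (Equiv.swap _ _).injective (e.symm.injective h1)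
  · intro m
    exact (e.symm (Equiv.swap i (e ⟨q, hq⟩) m)).2
  · show (e.symm (Equiv.swap i (e ⟨q, hq⟩) i)).1 = q
    rw [Equiv.swap_apply_left, Equiv.symm_apply_apply]

theorem Sched.nonneg {s0 s : Cfg M k} {ρ : List M} {c : ℝ} (H : Sched s0 ρ s c) : 0 ≤ c := by
  induction H with
  | nil => exact le_rfl
  | snoc _ _ ih => exact add_nonneg ih (Finset.sum_nonneg (fun _ _ => dist_nonneg))

theorem opt_le {s0 s : Cfg M k} {ρ : List M} {c : ℝ} (H : Sched s0 ρ s c) : opt s0 ρ ≤ c :=
  csInf_le ⟨0, by rintro c ⟨s, hs⟩; exact hs.nonneg⟩ ⟨s, H⟩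

theorem opt_nonneg (s0 : Cfg M k) (ρ : List M) : 0 ≤ opt s0 ρ :=
  Real.sInf_nonneg (by rintro c ⟨s, hs⟩; exact hs.nonneg)

theorem onlineCost_nonneg (A : List M → Cfg M k) (ρ : List M) : 0 ≤ onlineCost A ρ :=
  Finset.sum_nonneg (fun _ _ => Finset.sum_nonneg (fun _ _ => dist_nonneg))

theorem not_competitive {F : Type} [Fintype F] (hk : 3 ≤ k) (hcard : Fintype.card F = k + 1)
    {d : F → F → ℝ} (φ : F → M) (hφ : ∀ x y, dist (φ x) (φ y) = d x y) (hd : Met d) {r : ℝ}
    (hr : 0 < r) (H : Ratio d r) (s0 : Cfg M k) {C : ℝ} (hC : C < r) : ¬ Competitive s0 C := by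
  rintro ⟨A, hA, K, hK⟩
  obtain ⟨c0, hc0, hforce⟩ := H
  -- two different points
  obtain ⟨q, h0, hq⟩ : ∃ q h0 : F, q ≠ h0 := by
    have : 1 < Fintype.card F := by omega
    exact Fintype.exists_ne_of_one_lt_card this (Classical.choice (Fintype.card_pos_iff.1
      (by omega))) |>.elim (fun a ha => ⟨a, _, ha⟩)
  obtain ⟨i1, hi1⟩ : ∃ i1 : Fin k, i1 ≠ s0.2 := by
    have : 1 < Fintype.card (Fin k) := by rw [Fintype.card_fin]; omega
    exact Fintype.exists_ne_of_one_lt_card this s0.2
  obtain ⟨v0, hv0, hv0h, hv0q⟩ := exists_v hcard hq i1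
  let s1 : Cfg M k := (Function.update s0.1 i1 (φ q), i1)
  let s2 : Cfg M k := ((fun m => φ (v0 m)), i1)
  have st1 : Step s0 s1 (φ q) := by
    refine ⟨?_, ?_⟩
    · show Function.update s0.1 i1 (φ q) s0.2 = s0.1 s0.2
      rw [Function.update_of_ne hi1.symm]
    · show Function.update s0.1 i1 (φ q) i1 = φ q
      rw [Function.update_self]
  have st2 : Step s1 s2 (φ q) := by
    refine ⟨?_, ?_⟩
    · show φ (v0 i1) = Function.update s0.1 i1 (φ q) i1
      rw [Function.update_self, hv0q]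
    · show φ (v0 i1) = φ q
      rw [hv0q]
  have hpre : Sched s0 [φ q, φ q] s2 (0 + moveCost s0 s1 + moveCost s1 s2) := by
    have := Sched.snoc (Sched.snoc (Sched.nil (s0 := s0)) st1) st2
    simpa using this
  set K0 := 0 + moveCost s0 s1 + moveCost s1 s2 with hK0
  -- the online algorithm after the prefix
  have hsA : (A [φ q, φ q]).1 (A [φ q, φ q]).2 = φ q := by
    have := (hA.2 [φ q] (φ q)).2
    simpa using this
  obtain ⟨v1, hv1, hv1h, hv1q⟩ := exists_v hcard hq (A [φ q, φ q]).2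
  set Φ := ∑ m, dist ((A [φ q, φ q]).1 m) (φ (v1 m)) with hΦ
  set Cp := max C 0 with hCp
  have hCp0 : 0 ≤ Cp := le_max_right _ _
  have hCr : Cp < r := max_lt hC hr
  set B := Cp * (r * K0 + c0) + r * (K + Φ) with hB
  obtain ⟨h', f', σ, X, ⟨h'', f'', c, hoff, hc⟩, hG, hX⟩ := online_force hcard φ hφ hd hA
    [φ q, φ q] Φ (hforce h0 q hq.symm ((B + 1) / (r - Cp))) v1 hv1 hv1h (by simpa using hv1q)
    (by simpa using hsA) (by
      simp only [List.map_nil, List.reverse_nil, List.append_nil]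
      have := onlineCost_nonneg A [φ q, φ q]
      linarith)
  obtain ⟨s, v, c1, hs, -, -, -, -, hc1⟩ := offline_sim hcard φ hφ hpre v0 hv0 hv0h
    (fun m => rfl) hv0q hoff
  have h1 := opt_le hs
  have h2 := opt_nonneg s0 ([φ q, φ q] ++ (σ.map φ).reverse)
  have h3 := hK ([φ q, φ q] ++ (σ.map φ).reverse)
  have h4 : 0 ≤ ∑ m, dist (s.1 m) (φ (v m)) := Finset.sum_nonneg (fun _ _ => dist_nonneg)
  set O := opt s0 ([φ q, φ q] ++ (σ.map φ).reverse)
  have h5 : C * O ≤ Cp * O := mul_le_mul_of_nonneg_right (le_max_left _ _) h2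
  have h6 : Cp * O ≤ Cp * (K0 + c) := mul_le_mul_of_nonneg_left (by linarith) hCp0
  have h7 : X ≤ Cp * (K0 + c) + K + Φ := by linarith
  have h8 : r * X ≤ r * (Cp * (K0 + c) + K + Φ) := mul_le_mul_of_nonneg_left h7 hr.le
  have h9 : Cp * (r * c) ≤ Cp * (X + c0) := mul_le_mul_of_nonneg_left hc hCp0
  have h10 : (r - Cp) * X ≤ B := by
    rw [hB]
    nlinarith
  have h11 : B + 1 ≤ (r - Cp) * X := by
    have hG' : (B + 1) / (r - Cp) ≤ X := hG
    rw [div_le_iff₀ (by linarith)] at hG'
    linarith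
  linarith

end Real

/-- For every `k ≥ 4` (in fact for every `k ≥ 3`) there is a metric space `M` such that, from every
initial state, the competitiveness of the delayed `k`-server problem in `M` is at least `k`. -/
theorem result (k : ℕ) (hk : 3 ≤ k) :
    ∃ (M : Type) (_ : MetricSpace M), Nonempty (Cfg M k) ∧
      ∀ s0 : Cfg M k, ((k : ℝ) : EReal) ≤ competitiveness s0 := by
  refine ⟨lp (fun _ : ℕ => ℝ) ⊤, inferInstance, ⟨(fun _ => 0), ⟨0, by omega⟩⟩, ?_⟩
  intro s0
  apply le_sInf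
  rintro x ⟨C, rfl, hC⟩
  rw [EReal.coe_le_coe_iff]
  by_contra hlt
  push Not at hlt
  have hk' : (3 : ℝ) ≤ k := by exact_mod_cast hk
  set ε := min (1 / 2) ((k - C) / 2) with hε
  have hε0 : 0 < ε := lt_min (by norm_num) (by linarith)
  have hε1 : ε ≤ 1 / 2 := min_le_left _ _
  have hε2 : ε ≤ (k - C) / 2 := min_le_right _ _
  obtain ⟨F, hF, d, hcard, hd, hR⟩ := exists_ratio k hk ε hε0 (by linarith)
  letI : MetricSpace F :=
    { dist := d
      dist_self := hd.zero
      dist_comm := hd.symm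
      dist_triangle := hd.tri
      eq_of_dist_eq_zero := by
        intro x y hxy
        by_contra hc
        have := hd.pos x y hc
        have h2 : d x y = 0 := hxy
        linarith }
  obtain ⟨φ, hφ⟩ := KuratowskiEmbedding.exists_isometric_embedding F
  exact not_competitive hk hcard φ (fun x y => hφ.dist_eq x y) hd (by linarith) hR s0
    (by linarith) hC

end Pool.Agent.Results.MP_f4335c_lc.DelayedLower
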